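import Pool.Agent.Lib_helper24.K4H.L234
import Pool.Agent.Lib_helper76.K4M.IsogClosed
import Pool.Agent.Lib_helper2.K4.DefsH

/-!
L7 of the statement `HeckeK4`: the isogeny relation.
-/

set_option autoImplicit false
set_option linter.unusedSectionVars false

namespace Pool.Agent.MK4

open scoped TensorProduct
open Finset

section H

variable {F : Type*} [Field F] [CharZero F] [IsAlgClosed F] [DecidableEq F]
  {W : WeierstrassCurve.Affine F}

lemma X_eq {a : W.Point} (ha : a ≠ 0) : X a = K4M.xc a := by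
  rcases a with _ | ⟨x, y, h⟩
  · exact absurd rfl ha
  · rfl

/-- the isogeny of the library -/
noncomputable def isogOf {W' : WeierstrassCurve.Affine F} {φ : W.Point →+ W'.Point}
    (h : IsIsogeny φ) : K4M.Isog W W' where
  hom := φ
  fin := h.1
  P := h.2.choose
  Q := h.2.choose_spec.choose
  cop := h.2.choose_spec.choose_spec.1
  degP := h.2.choose_spec.choose_spec.2.1
  degQ := h.2.choose_spec.choose_spec.2.2.1
  val_zero := fun a ha h0 => by
    have := h.2.choose_spec.choose_spec.2.2.2.1 a ha h0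
    rwa [X_eq ha] at this
  val := fun a h0 => by
    have ha : a ≠ 0 := by
      rintro rfl
      exact h0 (map_zero φ)
    have := h.2.choose_spec.choose_spec.2.2.2.2 a h0
    rwa [X_eq ha, X_eq h0] at this

lemma isogOf_hom {W' : WeierstrassCurve.Affine F} {φ : W.Point →+ W'.Point}
    (h : IsIsogeny φ) : (isogOf h).hom = φ := rfl

lemma finsum_ker {M : Type*} [AddCommMonoid M] {W' : WeierstrassCurve.Affine F}
    (Φ : K4M.Isog W W') [Fintype Φ.hom.ker] (f : To W → M) :
    ∑ᶠ i : {i : To W // Φ.hom i = 0}, f i = ∑ i ∈ Φ.kerT, f i := by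
  have hmem : ∀ x : To W, x ∈ Φ.kerT ↔ Φ.hom x = 0 := by
    intro x
    rw [Φ.mem_kerT]
    constructor
    · intro h; exact congrArg Subtype.val h
    · intro h; exact Subtype.ext h
  have : Fintype {i : To W // Φ.hom i = 0} := Fintype.subtype Φ.kerT hmem
  rw [finsum_eq_sum_of_fintype, Finset.sum_subtype Φ.kerT hmem f]

/-- (L7), from (L1) -/
theorem isogRel_T' (hL1 : ∀ (W' : WeierstrassCurve.Affine F), W'.Δ ≠ 0 → ∀ g : To W' → FT F,
      (∀ a b : To W', a ≠ b → a ≠ -b → lg (dx (a : W'.Point) b) = pg g a b) →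
      g = (K4M.gT : To W' → FT F))
    (hW : W.Δ ≠ 0) {t : To W → To W → B2 F} (ht : Tri cr t) :
    IsogRel (fun a b : To W => hk (t a b) (K4M.gT b - K4M.gT a)) := by
  intro W' φ g' t' ξ' hW' hφ hD a b a' b' ha hb
  obtain rfl := hL1 W' hW' g' hD.siegel
  obtain ⟨h1, h2⟩ := (tri_iff_T hW).mp ht
  obtain ⟨h1', h2'⟩ := (tri_iff_T hW').mp hD.tri
  set Φ := isogOf hφ with hΦ
  have : Fintype Φ.hom.ker := Fintype.ofFinite _
  have key := Φ.D1_closed hW hW' h1 h2 h1' h2' a b
  have ea : Φ.homT a = a' := Subtype.ext ha.symm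
  have eb : Φ.homT b = b' := Subtype.ext hb.symm
  rw [ea, eb] at key
  have hcard : Nat.card φ.ker = Fintype.card Φ.hom.ker := by
    show Nat.card Φ.hom.ker = _
    exact Nat.card_eq_fintype_card
  have hc0 : (Fintype.card Φ.hom.ker : ℚ) ≠ 0 := Nat.cast_ne_zero.mpr Fintype.card_ne_zero
  rw [hcard, hD.xi]
  have e1 : (∑ᶠ (i : {i : To W // φ i = 0}) (j : {j : To W // φ j = 0}),
      hk (t (a + i) (b + j)) (K4M.gT (b + (j : To W)) - K4M.gT (a + (i : To W)))) =
      ∑ i ∈ Φ.kerT, ∑ j ∈ Φ.kerT,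
        hk (t (a + i) (b + j)) (K4M.gT (b + (j : To W)) - K4M.gT (a + (i : To W))) := by
    rw [← finsum_ker Φ]
    refine finsum_congr fun i => ?_
    exact finsum_ker Φ (fun j => hk (t (a + i) (b + j))
      (K4M.gT (b + (j : To W)) - K4M.gT (a + (i : To W))))
  show Fintype.card Φ.hom.ker • (∑ᶠ (i : {i : To W // φ i = 0}) (j : {j : To W // φ j = 0}),
      hk (t (a + i) (b + j)) (K4M.gT (b + (j : To W)) - K4M.gT (a + (i : To W)))) = _
  rw [e1]
  have key2 : (Fintype.card Φ.hom.ker : ℚ) • ∑ i ∈ Φ.kerT, ∑ j ∈ Φ.kerT,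
      Pool.Agent.K4ParP.xi (K4M.hkL F) t K4M.gT (a + i) (b + j) =
      Pool.Agent.K4ParP.xi (K4M.hkL F) t' K4M.gT a' b' := by
    rw [key, smul_smul, mul_inv_cancel₀ hc0, one_smul]
  rw [Nat.cast_smul_eq_nsmul] at key2
  exact key2

end H

end Pool.Agent.MK4
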